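import Mathlib
import Pool.Agent.Helper284.SpreadB

/-!
# A group of spread exactly one

The group is the group `GG` of all increasing dyadic piecewise linear bijections of the real line
which equal `z ↦ 2 ^ k z` near `-∞` and near `+∞`, for the same integer `k` at both ends.
-/

set_option autoImplicit false

namespace Pool.Agent.Results.MP_317377_al.SpreadOne

open Pool.Agent.Helper283.PL Pool.Agent.Helper284.Spread

/-- `f` is `z ↦ 2 ^ k z` near both ends of the line -/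
def End (f : Equiv.Perm ℝ) (k : ℤ) : Prop := ∃ R : ℝ, ∀ z : ℝ, R ≤ |z| → f z = 2 ^ k * z

theorem End.mul {f g : Equiv.Perm ℝ} {k l : ℤ} (hf : End f k) (hg : End g l) :
    End (f * g) (k + l) := by
  obtain ⟨R, hR⟩ := hf
  obtain ⟨S, hS⟩ := hg
  have hl : (0 : ℝ) < 2 ^ l := zpow_pos two_pos l
  refine ⟨max S (R / 2 ^ l), fun z hz => ?_⟩
  have h1 := (le_max_left S (R / 2 ^ l)).trans hz
  have h2 := (le_max_right S (R / 2 ^ l)).trans hz
  rw [div_le_iff₀ hl] at h2
  rw [Equiv.Perm.mul_apply, hS z h1, hR _ (by rw [abs_mul, abs_of_pos hl, mul_comm]; exact h2),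
    zpow_add₀ (two_ne_zero : (2 : ℝ) ≠ 0)]
  ring

theorem End.inv {f : Equiv.Perm ℝ} {k : ℤ} (hf : End f k) : End f⁻¹ (-k) := by
  obtain ⟨R, hR⟩ := hf
  have hk : (0 : ℝ) < 2 ^ k := zpow_pos two_pos k
  have hk' : (0 : ℝ) < 2 ^ (-k) := zpow_pos two_pos (-k)
  have hkk : (2 : ℝ) ^ k * 2 ^ (-k) = 1 := by
    rw [← zpow_add₀ (two_ne_zero : (2 : ℝ) ≠ 0)]; simp
  refine ⟨R * 2 ^ k, fun z hz => ?_⟩
  rw [Equiv.Perm.inv_eq_iff_eq, hR]
  · rw [← mul_assoc, hkk, one_mul]
  · rw [abs_mul, abs_of_pos hk']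
    have h1 : R = R * 2 ^ k * 2 ^ (-k) := by rw [mul_assoc, hkk, mul_one]
    have h2 : R * 2 ^ k * 2 ^ (-k) ≤ |z| * 2 ^ (-k) := mul_le_mul_of_nonneg_right hz hk'.le
    linarith [mul_comm |z| ((2 : ℝ) ^ (-k))]

theorem End.one : End 1 0 := ⟨0, fun z _ => by simp⟩

/-- increasing dyadic piecewise linear bijections of the line which equal `z ↦ 2 ^ k z` near both
ends, for some integer `k` -/
def GG : Subgroup (Equiv.Perm ℝ) where
  carrier := {f | f ∈ PLH ∧ ∃ k : ℤ, End f k}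
  mul_mem' := by
    rintro a b ⟨ha, k, hk⟩ ⟨hb, l, hl⟩
    exact ⟨PLH.mul_mem ha hb, k + l, hk.mul hl⟩
  one_mem' := ⟨PLH.one_mem, 0, End.one⟩
  inv_mem' := by
    rintro a ⟨ha, k, hk⟩
    exact ⟨PLH.inv_mem ha, -k, hk.inv⟩

theorem End.pow {f : Equiv.Perm ℝ} (hf : End f 1) (n : ℕ) : End (f ^ n) n := by
  induction n with
  | zero => simpa using End.one
  | succ n ih =>
    rw [pow_succ]
    have := ih.mul hf
    simpa using this

theorem End.zpow {f : Equiv.Perm ℝ} (hf : End f 1) (n : ℤ) : End (f ^ n) n := by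
  rcases n with n | n
  · have := hf.pow n
    simpa using this
  · have := (hf.pow (n + 1)).inv
    rw [zpow_negSucc]
    have e : (Int.negSucc n : ℤ) = -((n + 1 : ℕ) : ℤ) := rfl
    rw [e]
    exact this

/-- the maps `x` and its mate generate everything -/
theorem generation {x y : Equiv.Perm ℝ} (hx : x ∈ PLH) {m : ℤ} (hxm : End x m)
    {p a b : ℝ} (hxp : x p ≠ p) (hy : y ∈ PLH)
    (hy1 : End y 1) (hyp : y p = p) (h1 : ∀ z, p < z → z < y z) (h2 : ∀ z, z < p → y z < z)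
    (hya : y a < x p) (hyb : x p < y b) {v1 v2 : Equiv.Perm ℝ} (hv1 : v1 ∈ Sup a b)
    (hv2 : v2 ∈ Sup a b)
    (hgen : ∀ M : Subgroup (Equiv.Perm ℝ), v1 ∈ M → v2 ∈ M → Sup a b ≤ M)
    (hr1 : ∀ z, a ≤ z → z ≤ b → y (y z) = x (v1 z))
    (hr2 : ∀ z, a ≤ z → z ≤ b → y (y (x z)) = x (x (v2 z))) :
    ∀ f ∈ GG, f ∈ Subgroup.closure ({x, y} : Set (Equiv.Perm ℝ)) := by
  set H := Subgroup.closure ({x, y} : Set (Equiv.Perm ℝ)) with hH
  have hxH : x ∈ H := Subgroup.subset_closure (by simp)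
  have hyH : y ∈ H := Subgroup.subset_closure (by simp)
  -- the point u0
  set u0 : ℝ := y⁻¹ (x p) with hu0
  have hyu : y u0 = x p := by rw [hu0, inv_right]
  have hau : a < u0 := by rw [← hy.1.lt_iff_lt, hyu]; exact hya
  have hub : u0 < b := by rw [← hy.1.lt_iff_lt, hyu]; exact hyb
  have hpn : ∀ n : ℕ, (y⁻¹ ^ n) p = p := by
    intro n
    induction n with
    | zero => rfl
    | succ n ih => rw [pow_succ', Equiv.Perm.mul_apply, ih, inv_fix_10051 hyp]
  -- contraction towards u0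
  have squeeze : ∀ R s t : ℝ, s < u0 → u0 < t → ∃ g ∈ H, g ∈ PLH ∧ s < g (-R) ∧ g R < t ∧
      g p = u0 := by
    intro R s t hs ht
    have hcx : Continuous x := PLf.cont hx.2
    have hcy : Continuous (y⁻¹ : Equiv.Perm ℝ) := PLf.cont (PLH.inv_mem hy).2
    have hc : Filter.Tendsto (fun z => y⁻¹ (x z)) (nhds p) (nhds u0) :=
      (hcy.comp hcx).continuousAt
    have t1 := hc.comp (contract hy hyp h1 h2 (-R))
    have t2 := hc.comp (contract hy hyp h1 h2 R)
    obtain ⟨n, hn1, hn2⟩ := ((t1.eventually_const_lt hs).and (t2.eventually_lt_const ht)).exists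
    refine ⟨y⁻¹ * x * y⁻¹ ^ n, H.mul_mem (H.mul_mem (H.inv_mem hyH) hxH)
      (H.pow_mem (H.inv_mem hyH) n), PLH.mul_mem (PLH.mul_mem (PLH.inv_mem hy) hx)
      (PLH.pow_mem (PLH.inv_mem hy) n), hn1, hn2, ?_⟩
    show y⁻¹ (x ((y⁻¹ ^ n) p)) = u0
    rw [hpn]
  -- a compactly supported element moving p
  set c := x * y * x⁻¹ * y⁻¹ with hcdef
  have hcH : c ∈ H := H.mul_mem (H.mul_mem (H.mul_mem hxH hyH) (H.inv_mem hxH)) (H.inv_mem hyH)
  have hcP : c ∈ PLH := PLH.mul_mem (PLH.mul_mem (PLH.mul_mem hx hy) (PLH.inv_mem hx))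
    (PLH.inv_mem hy)
  have hcE : End c 0 := by
    have := ((hxm.mul hy1).mul hxm.inv).mul hy1.inv
    have h0 : m + 1 + -m + -1 = 0 := by ring
    rwa [h0] at this
  have hcp : c p ≠ p := by
    intro hcon
    have h3 : c p = x (y (x⁻¹ p)) := by
      show x (y (x⁻¹ (y⁻¹ p))) = _
      rw [inv_fix_10051 hyp]
    rw [h3] at hcon
    have h4 : y (x⁻¹ p) = x⁻¹ p := by
      conv_rhs => rw [← hcon]
      rw [inv_left]
    have h5 : x⁻¹ p = p := by
      rcases lt_trichotomy (x⁻¹ p) p with h | h | h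
      · have := h2 _ h; linarith
      · exact h
      · have := h1 _ h; linarith
    apply hxp
    conv_lhs => rw [← h5]
    exact inv_right x p
  obtain ⟨R0, hR0⟩ := hcE
  obtain ⟨g, hgH, hgP, hg1, hg2, hg3⟩ := squeeze (max R0 0) a b hau hub
  -- the element h supported in [a, b] and moving u0
  have hfix : ∀ z, (z ≤ -(max R0 0) ∨ max R0 0 ≤ z) → c z = z := by
    intro z hz
    have h3 : R0 ≤ |z| := by
      have := le_max_left R0 0
      rcases hz with hz | hz
      · have h4 := neg_le_abs z; linarith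
      · have h4 := le_abs_self z; linarith
    have := hR0 z h3
    simpa using this
  have hex : ∃ h ∈ H, h ∈ Sup a b ∧ u0 < h u0 := by
    have key : ∀ c' ∈ H, c' ∈ PLH → (∀ z, (z ≤ -(max R0 0) ∨ max R0 0 ≤ z) → c' z = z) →
        p < c' p → ∃ h ∈ H, h ∈ Sup a b ∧ u0 < h u0 := by
      intro c' hc'H hc'P hc'f hc'p
      refine ⟨g * c' * g⁻¹, H.mul_mem (H.mul_mem hgH hc'H) (H.inv_mem hgH),
        ⟨PLH.mul_mem (PLH.mul_mem hgP hc'P) (PLH.inv_mem hgP), ?_⟩, ?_⟩
      · intro z hz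
        show g (c' (g⁻¹ z)) = z
        rw [hc'f, inv_right]
        rcases hz with hz | hz
        · left
          rw [← hgP.1.le_iff_le, inv_right]; linarith
        · right
          rw [← hgP.1.le_iff_le, inv_right]; linarith
      · show u0 < g (c' (g⁻¹ u0))
        rw [← hg3, inv_left]
        exact hgP.1 hc'p
    rcases lt_or_gt_of_ne hcp with h | h
    · apply key c⁻¹ (H.inv_mem hcH) (PLH.inv_mem hcP)
      · intro z hz
        exact inv_fix_10051 (hfix z hz)
      · rw [← hcP.1.lt_iff_lt, inv_right]; exact h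
    · exact key c hcH hcP hfix h
  obtain ⟨h, hhH, hhS, hhu⟩ := hex
  -- the normalizer
  set N := H ⊓ Sup a b with hN
  have conjeq : ∀ w v : Equiv.Perm ℝ, v ∈ Sup a b → (∀ z, a ≤ z → z ≤ b → w z = v z) →
      ∀ f ∈ Sup a b, v * f * v⁻¹ = w * f * w⁻¹ := by
    intro w v hv hwv f hf
    have hin : ∀ {e : Equiv.Perm ℝ}, e ∈ Sup a b → ∀ z, a ≤ z → z ≤ b → a ≤ e z ∧ e z ≤ b := by
      intro e he z h3 h4
      have k1 := he.1.1.monotone h3
      have k2 := he.1.1.monotone h4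
      rw [he.2 a (Or.inl le_rfl)] at k1
      rw [he.2 b (Or.inr le_rfl)] at k2
      exact ⟨k1, k2⟩
    have hvi : v⁻¹ ∈ Sup a b := (Sup a b).inv_mem hv
    apply Equiv.ext
    intro z
    show v (f (v⁻¹ z)) = w (f (w⁻¹ z))
    by_cases hz : a ≤ z ∧ z ≤ b
    · obtain ⟨k1, k2⟩ := hin hvi z hz.1 hz.2
      have hwi : w⁻¹ z = v⁻¹ z := by
        rw [Equiv.Perm.inv_eq_iff_eq, hwv _ k1 k2, inv_right]
      obtain ⟨l1, l2⟩ := hin hf _ k1 k2
      rw [hwi, hwv _ l1 l2]
    · have hz' : z ≤ a ∨ b ≤ z := by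
        by_contra hcon
        push Not at hcon
        exact hz ⟨hcon.1.le, hcon.2.le⟩
      have hwz : ¬ (a ≤ w⁻¹ z ∧ w⁻¹ z ≤ b) := by
        intro hcon
        have h3 := hwv _ hcon.1 hcon.2
        rw [inv_right] at h3
        obtain ⟨k1, k2⟩ := hin hv _ hcon.1 hcon.2
        rw [← h3] at k1 k2
        exact hz ⟨k1, k2⟩
      have hwz' : w⁻¹ z ≤ a ∨ b ≤ w⁻¹ z := by
        by_contra hcon
        push Not at hcon
        exact hwz ⟨hcon.1.le, hcon.2.le⟩
      rw [hvi.2 z hz', hf.2 z hz', hv.2 z hz', hf.2 _ hwz', inv_right]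
  have normz : ∀ w ∈ H, ∀ v ∈ Sup a b, (∀ z, a ≤ z → z ≤ b → w z = v z) →
      v ∈ Subgroup.normalizer (N : Set (Equiv.Perm ℝ)) := by
    intro w hw v hv hwv
    rw [Subgroup.mem_normalizer_iff]
    intro n
    constructor
    · rintro ⟨hn1, hn2⟩
      refine ⟨?_, (Sup a b).mul_mem ((Sup a b).mul_mem hv hn2) ((Sup a b).inv_mem hv)⟩
      rw [conjeq w v hv hwv n hn2]
      exact H.mul_mem (H.mul_mem hw hn1) (H.inv_mem hw)
    · rintro ⟨hn1, hn2⟩
      have hn : n ∈ Sup a b := by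
        have h3 : n = v⁻¹ * (v * n * v⁻¹) * v := by group
        rw [h3]
        exact (Sup a b).mul_mem ((Sup a b).mul_mem ((Sup a b).inv_mem hv) hn2) hv
      refine ⟨?_, hn⟩
      rw [conjeq w v hv hwv n hn] at hn1
      have h3 : n = w⁻¹ * (w * n * w⁻¹) * w := by group
      rw [h3]
      exact H.mul_mem (H.mul_mem (H.inv_mem hw) hn1) hw
  have hle : Sup a b ≤ Subgroup.normalizer (N : Set (Equiv.Perm ℝ)) := by
    apply hgen
    · apply normz (x⁻¹ * y * y) (H.mul_mem (H.mul_mem (H.inv_mem hxH) hyH) hyH) v1 hv1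
      intro z h3 h4
      show x⁻¹ (y (y z)) = v1 z
      rw [hr1 z h3 h4, inv_left]
    · apply normz (x⁻¹ * x⁻¹ * y * y * x) (H.mul_mem (H.mul_mem (H.mul_mem (H.mul_mem
        (H.inv_mem hxH) (H.inv_mem hxH)) hyH) hyH) hxH) v2 hv2
      intro z h3 h4
      show x⁻¹ (x⁻¹ (y (y (x z)))) = v2 z
      rw [hr2 z h3 h4, inv_left, inv_left]
  -- small interval around u0 moved off itself by h
  obtain ⟨t, hut, htm⟩ := exists_between (lt_min hub hhu)
  have htb : t < b := htm.trans_le (min_le_left _ _)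
  have hth : t < h u0 := htm.trans_le (min_le_right _ _)
  have hhc : Continuous h := PLf.cont hhS.1.2
  have hev : ∀ᶠ s in nhds u0, t < h s := hhc.continuousAt.eventually_const_lt hth
  have hev2 : ∀ᶠ s in nhds u0, a < s := lt_mem_nhds hau
  obtain ⟨δ, hδ, hball⟩ := Metric.eventually_nhds_iff.1 (hev.and hev2)
  obtain ⟨hths, has⟩ := hball (y := u0 - δ / 2) (by
    rw [Real.dist_eq, show u0 - δ / 2 - u0 = -(δ / 2) by ring, abs_neg, abs_of_pos (by linarith)]
    linarith)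
  set s : ℝ := u0 - δ / 2 with hs
  have hsu : s < u0 := by rw [hs]; linarith
  have comm_small : ∀ b1 ∈ Sup s t, ∀ b2 ∈ Sup s t, b1 * b2 * b1⁻¹ * b2⁻¹ ∈ H := by
    intro b1 hb1 b2 hb2
    have hb1' : b1 ∈ Sup a b := Sup.mono has.le htb.le hb1
    have hb2' : b2 ∈ Sup a b := Sup.mono has.le htb.le hb2
    have hhN : h ∈ N := ⟨hhH, hhS⟩
    have e1 : b2 * h * b2⁻¹ ∈ N := (Subgroup.mem_normalizer_iff.1 (hle hb2') h).1 hhN
    have e2 : b2 * h * b2⁻¹ * h⁻¹ ∈ N := N.mul_mem e1 (N.inv_mem hhN)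
    have e3 : b1 * (b2 * h * b2⁻¹ * h⁻¹) * b1⁻¹ ∈ N :=
      (Subgroup.mem_normalizer_iff.1 (hle hb1') _).1 e2
    have e4 := N.mul_mem e3 (N.inv_mem e2)
    set q := h * b2⁻¹ * h⁻¹ with hq
    have hqS : q ∈ Sup (h s) (h t) := by
      refine ⟨PLH.mul_mem (PLH.mul_mem hhS.1 (PLH.inv_mem hb2.1)) (PLH.inv_mem hhS.1), ?_⟩
      intro z hz
      show h (b2⁻¹ (h⁻¹ z)) = z
      have : b2⁻¹ (h⁻¹ z) = h⁻¹ z := by
        apply inv_fix_10051
        apply hb2.2
        rcases hz with hz | hz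
        · left
          rw [← hhS.1.1.le_iff_le, inv_right]; exact hz
        · right
          rw [← hhS.1.1.le_iff_le, inv_right]; exact hz
      rw [this, inv_right]
    have hcomm : b1 * q = q * b1 := Sup.comm hths.le hb1 hqS
    have hfin : b1 * (b2 * h * b2⁻¹ * h⁻¹) * b1⁻¹ * (b2 * h * b2⁻¹ * h⁻¹)⁻¹ =
        b1 * b2 * b1⁻¹ * b2⁻¹ := by
      have h3 : b2 * h * b2⁻¹ * h⁻¹ = b2 * q := by rw [hq]; group
      have h4 : q * b1⁻¹ * q⁻¹ = b1⁻¹ := by
        have h5 : q * b1⁻¹ = b1⁻¹ * q := by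
          have h6 : b1⁻¹ * (b1 * q) * b1⁻¹ = b1⁻¹ * (q * b1) * b1⁻¹ := by rw [hcomm]
          have h7 : b1⁻¹ * (b1 * q) * b1⁻¹ = q * b1⁻¹ := by group
          have h8 : b1⁻¹ * (q * b1) * b1⁻¹ = b1⁻¹ * q := by group
          rw [← h7, h6, h8]
        rw [h5]; group
      rw [h3]
      calc b1 * (b2 * q) * b1⁻¹ * (b2 * q)⁻¹ = b1 * b2 * (q * b1⁻¹ * q⁻¹) * b2⁻¹ := by group
        _ = b1 * b2 * b1⁻¹ * b2⁻¹ := by rw [h4]
    rw [hfin] at e4
    exact e4.1
  -- all commutators of compactly supported maps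
  have comm_all : ∀ R : ℝ, ∀ b1 ∈ Sup (-R) R, ∀ b2 ∈ Sup (-R) R, b1 * b2 * b1⁻¹ * b2⁻¹ ∈ H := by
    intro R b1 hb1 b2 hb2
    obtain ⟨k, hkH, hkP, hk1, hk2, -⟩ := squeeze R s t hsu hut
    have hc : ∀ b' ∈ Sup (-R) R, k * b' * k⁻¹ ∈ Sup s t := by
      intro b' hb'
      refine ⟨PLH.mul_mem (PLH.mul_mem hkP hb'.1) (PLH.inv_mem hkP), fun z hz => ?_⟩
      show k (b' (k⁻¹ z)) = z
      rw [hb'.2, inv_right]
      rcases hz with hz | hz
      · left
        rw [← hkP.1.le_iff_le, inv_right]; linarith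
      · right
        rw [← hkP.1.le_iff_le, inv_right]; linarith
    have h3 := comm_small _ (hc b1 hb1) _ (hc b2 hb2)
    have h4 : b1 * b2 * b1⁻¹ * b2⁻¹ = k⁻¹ * (k * b1 * k⁻¹ * (k * b2 * k⁻¹) * (k * b1 * k⁻¹)⁻¹ *
        (k * b2 * k⁻¹)⁻¹) * k := by group
    rw [h4]
    exact H.mul_mem (H.mul_mem (H.inv_mem hkH) h3) hkH
  -- all compactly supported maps
  have comp_all : ∀ f ∈ PLH, End f 0 → f ∈ H := by
    intro f hf hE
    obtain ⟨R, hR⟩ := hE
    obtain ⟨n, hn⟩ := exists_nat_gt (max R 0)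
    have hnR : R < n := (le_max_left _ _).trans_lt hn
    have hfS : f ∈ Sup (-((n : ℝ) + 1) + 1) ((n : ℝ) + 1 - 1) := by
      refine ⟨hf, fun z hz => ?_⟩
      have h3 : R ≤ |z| := by
        rcases hz with hz | hz
        · have := neg_le_abs z; linarith
        · have := le_abs_self z; linarith
      have := hR z h3
      simpa using this
    obtain ⟨l, hl, hprod⟩ := comm_prod ((Dy.nat n).add Dy.one).neg ((Dy.nat n).add Dy.one)
      one_pos hfS
    rw [hprod]
    apply Subgroup.list_prod_mem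
    intro q hq
    rw [List.mem_map] at hq
    obtain ⟨r, hr, rfl⟩ := hq
    exact comm_all _ _ (hl r hr).1 _ (hl r hr).2
  -- everything
  rintro f ⟨hf, k, hk⟩
  have h3 : f * (y ^ k)⁻¹ ∈ H := by
    apply comp_all _ (PLH.mul_mem hf (PLH.inv_mem (PLH.zpow_mem hy k)))
    have := hk.mul (hy1.zpow k).inv
    simpa using this
  have h4 : f = f * (y ^ k)⁻¹ * y ^ k := by group
  rw [h4]
  exact H.mul_mem h3 (H.zpow_mem hyH k)

/-- every nontrivial element of `GG` has a mate -/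
theorem mate (x : GG) (hx1 : x ≠ 1) : ∃ y : GG, Subgroup.closure {x, y} = ⊤ := by
  obtain ⟨x, hxP, m, hm⟩ := x
  -- a moved point
  have hmove : ∃ p, Dy p ∧ x p ≠ p := by
    by_contra hcon
    push Not at hcon
    apply hx1
    apply Subtype.ext
    apply Equiv.ext
    intro z
    show x z = z
    by_contra hz
    have hc : Continuous x := PLf.cont hxP.2
    have hev : ∀ᶠ w in nhds z, x w ≠ w :=
      (hc.continuousAt.prodMk continuousAt_id).eventually
        ((isClosed_diagonal (X := ℝ)).isOpen_compl.mem_nhds (show (x z, z) ∉ Set.diagonal ℝ from hz))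
    obtain ⟨ε, hε, hb⟩ := Metric.eventually_nhds_iff.1 hev
    obtain ⟨w, hw, hw1, hw2⟩ := Dy.exists_between (show z < z + ε by linarith)
    exact hb (y := w) (by rw [Real.dist_eq, abs_of_pos (by linarith)]; linarith) (hcon w hw)
  obtain ⟨p, hdp, hxp⟩ := hmove
  -- enough in the ambient group
  suffices hs : ∃ y : Equiv.Perm ℝ, y ∈ GG ∧
      ∀ f ∈ GG, f ∈ Subgroup.closure ({x, y} : Set (Equiv.Perm ℝ)) by
    obtain ⟨y, hyG, hall⟩ := hs
    refine ⟨⟨y, hyG⟩, ?_⟩
    rw [eq_top_iff]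
    intro f _
    have h1 := hall f f.2
    have h2 : Subgroup.closure ({x, y} : Set (Equiv.Perm ℝ)) =
        (Subgroup.closure ({⟨x, hxP, m, hm⟩, ⟨y, hyG⟩} : Set GG)).map GG.subtype := by
      rw [MonoidHom.map_closure]
      congr 1
      ext z
      simp [eq_comm]
    rw [h2, Subgroup.mem_map] at h1
    obtain ⟨g, hg, hgf⟩ := h1
    have : g = f := Subtype.ext hgf
    rwa [← this]
  rcases lt_or_gt_of_ne hxp with h | h
  · -- use the inverse
    have hxiP := PLH.inv_mem hxP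
    have h' : p < x⁻¹ p := by rw [← hxP.1.lt_iff_lt, inv_right]; exact h
    obtain ⟨a, b, hda, hdb, hab, hmk⟩ := exists_mate hxiP hdp h'
    obtain ⟨v1, hv1, v2, hv2, hgen⟩ := gen_two_interval hda hdb hab
    obtain ⟨y, hyP, ⟨R, hR⟩, hyp, h1, h2, hya, hyb, hr1, hr2⟩ := hmk v1 hv1 v2 hv2
    have hy1 : End y 1 := ⟨R, fun z hz => by rw [hR z hz, zpow_one]⟩
    refine ⟨y, ⟨hyP, 1, hy1⟩, fun f hf => ?_⟩
    have hall := generation hxiP hm.inv (ne_of_gt h') hyP hy1 hyp h1 h2 hya hyb hv1 hv2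
      hgen hr1 hr2 f hf
    refine (Subgroup.closure_le _).2 ?_ hall
    rintro z (hz | hz)
    · rw [hz]
      exact Subgroup.inv_mem _ (Subgroup.subset_closure (by simp))
    · rw [Set.mem_singleton_iff] at hz
      rw [hz]
      exact Subgroup.subset_closure (by simp)
  · obtain ⟨a, b, hda, hdb, hab, hmk⟩ := exists_mate hxP hdp h
    obtain ⟨v1, hv1, v2, hv2, hgen⟩ := gen_two_interval hda hdb hab
    obtain ⟨y, hyP, ⟨R, hR⟩, hyp, h1, h2, hya, hyb, hr1, hr2⟩ := hmk v1 hv1 v2 hv2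
    have hy1 : End y 1 := ⟨R, fun z hz => by rw [hR z hz, zpow_one]⟩
    exact ⟨y, ⟨hyP, 1, hy1⟩, generation hxP hm hxp hyP hy1 hyp h1 h2 hya hyb hv1 hv2
      hgen hr1 hr2⟩

/-! ### No common mate -/

/-- translated copies of a nontrivial map supported in the unit interval -/
theorem shift_mem {c : ℝ} (hc : Dy c) : tr c * (X : Equiv.Perm ℝ) * (tr c)⁻¹ ∈ GG ∧
    End (tr c * (X : Equiv.Perm ℝ) * (tr c)⁻¹) 0 := by
  have hval : ∀ z, (tr c * (X : Equiv.Perm ℝ) * (tr c)⁻¹) z = (X : Equiv.Perm ℝ) (z - c) + c := by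
    intro z
    show (X : Equiv.Perm ℝ) ((tr c)⁻¹ z) + c = _
    congr 2
  have hE : End (tr c * (X : Equiv.Perm ℝ) * (tr c)⁻¹) 0 := by
    refine ⟨|c| + 1, fun z hz => ?_⟩
    rw [hval, X_out_10184, zpow_zero, one_mul]
    · ring
    · rcases le_total 0 z with h | h
      · right
        rw [abs_of_nonneg h] at hz
        have := le_abs_self c
        linarith
      · left
        rw [abs_of_nonpos h] at hz
        have := neg_le_abs c
        linarith
  exact ⟨⟨PLH.mul_mem (PLH.mul_mem (tr_mem hc) X.2.1) (PLH.inv_mem (tr_mem hc)), 0, hE⟩, hE⟩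

theorem shift_apply (c z : ℝ) :
    (tr c * (X : Equiv.Perm ℝ) * (tr c)⁻¹) z = (X : Equiv.Perm ℝ) (z - c) + c := by
  show (X : Equiv.Perm ℝ) ((tr c)⁻¹ z) + c = _
  congr 2

theorem X_quarter : (X : Equiv.Perm ℝ) (1 / 4) = 1 / 2 := by
  have := X1 zero_le_one (le_refl (1 : ℝ))
  simp only [aff] at this
  norm_num at this
  norm_num
  exact this

/-- `z ↦ 2 z` -/
theorem double_mem : aff_10050 1 0 ∈ GG ∧ End (aff_10050 1 0) 1 := by
  have h : End (aff_10050 1 0) 1 := ⟨0, fun z _ => by rw [aff1_apply, zpow_one]; ring⟩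
  exact ⟨⟨aff_mem_10050 1 Dy.zero, 1, h⟩, h⟩

/-- every map in `GG` with a nonzero exponent fixes a point -/
theorem exists_fixed {y : Equiv.Perm ℝ} (hy : y ∈ PLH) {k : ℤ} (hk : End y k) (hk0 : k ≠ 0) :
    ∃ p, y p = p := by
  obtain ⟨R, hR⟩ := hk
  have hc : Continuous (fun z => y z - z) := (PLf.cont hy.2).sub continuous_id
  set M : ℝ := max R 1 with hM
  have hM1 : 1 ≤ M := le_max_right _ _
  have hMR : R ≤ M := le_max_left _ _
  have e1 : y M = 2 ^ k * M := hR M (by rw [abs_of_pos (by linarith)]; exact hMR)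
  have e2 : y (-M) = 2 ^ k * -M := hR (-M) (by rw [abs_neg, abs_of_pos (by linarith)]; exact hMR)
  have key : (0 : ℝ) ∈ Set.range (fun z => y z - z) := by
    rcases lt_or_gt_of_ne hk0 with h | h
    · have h1 : (2 : ℝ) ^ k ≤ 1 := zpow_le_one_of_nonpos₀ (by norm_num) h.le
      apply mem_range_of_exists_le_of_exists_ge hc
      · refine ⟨M, ?_⟩
        show y M - M ≤ 0
        rw [e1]; nlinarith
      · refine ⟨-M, ?_⟩
        show 0 ≤ y (-M) - -M
        rw [e2]; nlinarith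
    · have h1 : (1 : ℝ) ≤ 2 ^ k := one_le_zpow₀ (by norm_num) h.le
      apply mem_range_of_exists_le_of_exists_ge hc
      · refine ⟨-M, ?_⟩
        show y (-M) - -M ≤ 0
        rw [e2]; nlinarith
      · refine ⟨M, ?_⟩
        show 0 ≤ y M - M
        rw [e1]; nlinarith
  obtain ⟨p, hp⟩ := key
  exact ⟨p, by linarith [show y p - p = 0 from hp]⟩

/-- if a point is fixed by `x` and `y` then `x` and `y` do not generate `GG` -/
theorem not_gen_of_fixed {x y : GG} {p : ℝ} (hx : (x : Equiv.Perm ℝ) p = p)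
    (hy : (y : Equiv.Perm ℝ) p = p) : Subgroup.closure {x, y} ≠ ⊤ := by
  intro htop
  have hall : ∀ f : GG, (f : Equiv.Perm ℝ) p = p := by
    intro f
    have hf : f ∈ Subgroup.closure ({x, y} : Set GG) := by rw [htop]; trivial
    induction hf using Subgroup.closure_induction with
    | mem z hz =>
      rcases hz with hz | hz
      · rw [hz]; exact hx
      · rw [Set.mem_singleton_iff] at hz
        rw [hz]; exact hy
    | one => rfl
    | mul a b _ _ ha hb =>
      show (a : Equiv.Perm ℝ) ((b : Equiv.Perm ℝ) p) = p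
      rw [hb, ha]
    | inv a _ ha => exact inv_fix_10051 ha
  by_cases hp : p = 0
  · have h1 := hall ⟨_, (shift_mem (c := -(1 / 4)) ⟨-1, 2, by norm_num⟩).1⟩
    have h2 := shift_apply (-(1 / 4)) p
    rw [hp, show (0 : ℝ) - -(1 / 4) = 1 / 4 by norm_num, X_quarter] at h2
    rw [hp] at h1
    have h3 : (1 : ℝ) / 2 + -(1 / 4) = 0 := h2.symm.trans h1
    norm_num at h3
  · have h1 := hall ⟨_, double_mem.1⟩
    have h2 := aff1_apply 0 p
    have h3 : 2 * p + 0 = p := h2.symm.trans h1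
    apply hp
    linarith

/-- maps with exponent zero do not generate `GG` -/
theorem not_gen_of_zero {x y : GG} (hx : End x 0) (hy : End y 0) :
    Subgroup.closure {x, y} ≠ ⊤ := by
  intro htop
  have hall : ∀ f : GG, End f 0 := by
    intro f
    have hf : f ∈ Subgroup.closure ({x, y} : Set GG) := by rw [htop]; trivial
    induction hf using Subgroup.closure_induction with
    | mem z hz =>
      rcases hz with hz | hz
      · rw [hz]; exact hx
      · rw [Set.mem_singleton_iff] at hz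
        rw [hz]; exact hy
    | one => exact End.one
    | mul a b _ _ ha hb =>
      have := ha.mul hb
      simpa using this
    | inv a _ ha =>
      have := ha.inv
      simpa using this
  obtain ⟨R, hR⟩ := hall ⟨_, double_mem.1⟩
  have h1 := hR (max R 1) (by
    rw [abs_of_pos (lt_of_lt_of_le one_pos (le_max_right R 1))]
    exact le_max_left R 1)
  have h2 : 2 * max R 1 + 0 = (2 : ℝ) ^ (0 : ℤ) * max R 1 := (aff1_apply 0 _).symm.trans h1
  have h3 := le_max_right R 1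
  rw [zpow_zero, one_mul] at h2
  linarith

/-- `G` is `k`-spread: for all nontrivial `x_1, …, x_k` there is `y` such that each pair
`x_i, y` generates `G` -/
def KSpread (k : ℕ) (G : Type) [Group G] : Prop :=
  ∀ x : Fin k → G, (∀ i, x i ≠ 1) → ∃ y : G, ∀ i, Subgroup.closure {x i, y} = ⊤

theorem spread_GG (k : ℕ) : KSpread k GG ↔ k ≤ 1 := by
  constructor
  · intro hk
    by_contra hcon
    push Not at hcon
    have hd0 : Dy (0 : ℝ) := Dy.zero
    have hd2 : Dy (2 : ℝ) := ⟨2, 0, by norm_num⟩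
    set a1 : GG := ⟨_, (shift_mem hd0).1⟩ with ha1
    set a2 : GG := ⟨_, (shift_mem hd2).1⟩ with ha2
    have v1 : ∀ z, (a1 : Equiv.Perm ℝ) z = (X : Equiv.Perm ℝ) (z - 0) + 0 := shift_apply 0
    have v2 : ∀ z, (a2 : Equiv.Perm ℝ) z = (X : Equiv.Perm ℝ) (z - 2) + 2 := shift_apply 2
    have n1 : a1 ≠ 1 := by
      intro h
      have h1 := v1 (1 / 4)
      rw [h, sub_zero, X_quarter] at h1
      have h2 : (1 / 4 : ℝ) = 1 / 2 + 0 := h1
      norm_num at h2
    have n2 : a2 ≠ 1 := by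
      intro h
      have h1 := v2 (9 / 4)
      rw [h, show (9 / 4 : ℝ) - 2 = 1 / 4 by norm_num, X_quarter] at h1
      have h2 : (9 / 4 : ℝ) = 1 / 2 + 2 := h1
      norm_num at h2
    obtain ⟨y, hy⟩ := hk (fun i => if i.val = 0 then a1 else a2) (fun i => by
      by_cases h : i.val = 0
      · rw [if_pos h]; exact n1
      · rw [if_neg h]; exact n2)
    have g1 : Subgroup.closure {a1, y} = ⊤ := by
      have := hy ⟨0, by omega⟩
      simpa using this
    have g2 : Subgroup.closure {a2, y} = ⊤ := by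
      have := hy ⟨1, by omega⟩
      simpa using this
    obtain ⟨yP, m, hm⟩ := y.2
    by_cases hm0 : m = 0
    · rw [hm0] at hm
      exact not_gen_of_zero (shift_mem hd0).2 hm g1
    · obtain ⟨p, hp⟩ := exists_fixed yP hm hm0
      rcases le_total p 2 with h | h
      · refine not_gen_of_fixed (x := a2) (y := y) (p := p) ?_ hp g2
        rw [v2, X_out_10184 (Or.inl (by linarith))]
        ring
      · refine not_gen_of_fixed (x := a1) (y := y) (p := p) ?_ hp g1
        rw [v1, X_out_10184 (Or.inr (by linarith))]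
        ring
  · intro hk x hx
    have hk' : k = 0 ∨ k = 1 := by omega
    rcases hk' with rfl | rfl
    · exact ⟨1, fun i => i.elim0⟩
    · obtain ⟨y, hy⟩ := mate (x 0) (hx 0)
      refine ⟨y, fun i => ?_⟩
      rw [Subsingleton.elim i 0]
      exact hy

/-- There is a group whose spread is exactly one: `1` is the largest `k` such that the group is
`k`-spread. -/
theorem result : ∃ (G : Type) (_ : Group G), IsGreatest {k : ℕ | KSpread k G} 1 :=
  ⟨GG, inferInstance, (spread_GG 1).2 le_rfl, fun k hk => (spread_GG k).1 hk⟩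

end Pool.Agent.Results.MP_317377_al.SpreadOne
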